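import Pool.Agent.L0h86.JS.StmN
import Pool.Agent.N848.Q.J

/-!
# Project JS, module REF: the reflection, `C(-e)` implies `C(e)`, in all classes
-/

set_option autoImplicit false
set_option linter.unusedVariables false
set_option linter.unusedSectionVars false

open scoped Classical

namespace Pool.Agent.L0h1.JS

open Finset
open Pool.Agent.Y703.CQ (nr)
open Pool.Agent.N973.ND (uu)
open Pool.Agent.N916.GB (Po sy Vt Gd z2 z2_add_self z2_sq nr_recip z2_eq_of_add sum_uu)
open Pool.Agent.N848.Q (ns ns_zero ns_mul ns_one ns_nat prod_star_mod prod_star_sign star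
  crit_iff crit_pos_of_neg crit_unit po_of sum_Vt mem_Vt sy_odd sy_two uu_of)
open Pool.Agent.L0h86.JR (Cr)
open Pool.Agent.L0h86.JS (Cr7 CrE Gd7 S_TRG)

/-! ### Linear algebra -/

/-- the rank one perturbation -/
theorem dual {I : Type} [Fintype I] (N : I → I → ZMod 2) (u v w : I → ZMod 2)
    (hu : ∀ j, ∑ i, u i * N i j = 0) (hvu : ∑ i, v i * u i = 1)
    (hinj : ∀ x : I → ZMod 2, (∀ i, ∑ j, N i j * x j = 0) → ∑ j, w j * x j = 0 → ∀ i, x i = 0)
    {y : I → ZMod 2} {c : ZMod 2} (hy : ∀ j, ∑ i, y i * N i j = c * w j) :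
    c = 0 ∧ ∀ i, y i = (∑ k, v k * y k) * u i := by
  set M : Matrix I I (ZMod 2) := Matrix.of fun i j => N i j + v i * w j with hM
  have hMi : Function.Injective M.mulVec := by
    intro x x' hxx
    have h1 : ∀ i, ∑ j, N i j * (x j - x' j) + v i * ∑ j, w j * (x j - x' j) = 0 := by
      intro i
      have h2 := congrFun hxx i
      simp only [Matrix.mulVec, dotProduct, hM, Matrix.of_apply] at h2
      rw [mul_sum, ← sum_add_distrib]
      have h3 : ∑ j, (N i j + v i * w j) * x j - ∑ j, (N i j + v i * w j) * x' j = 0 := by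
        rw [h2, sub_self]
      rw [← h3, ← sum_sub_distrib]
      exact sum_congr rfl fun j _ => by ring
    have h2 : ∑ j, w j * (x j - x' j) = 0 := by
      have h3 : ∑ i, u i * (∑ j, N i j * (x j - x' j) + v i * ∑ j, w j * (x j - x' j)) = 0 :=
        sum_eq_zero fun i _ => by rw [h1 i, mul_zero]
      have h4 : ∑ i, u i * (∑ j, N i j * (x j - x' j)) = 0 := by
        have h5 : ∑ i, u i * (∑ j, N i j * (x j - x' j)) =
            ∑ j, (∑ i, u i * N i j) * (x j - x' j) := by
          simp_rw [mul_sum, sum_mul]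
          rw [sum_comm]
          exact sum_congr rfl fun j _ => sum_congr rfl fun i _ => by ring
        rw [h5]
        exact sum_eq_zero fun j _ => by rw [hu j, zero_mul]
      simp_rw [mul_add] at h3
      rw [sum_add_distrib, h4, zero_add] at h3
      have h6 : ∑ i, u i * (v i * ∑ j, w j * (x j - x' j)) =
          (∑ i, v i * u i) * ∑ j, w j * (x j - x' j) := by
        rw [sum_mul]
        exact sum_congr rfl fun i _ => by ring
      rw [h6, hvu, one_mul] at h3
      exact h3
    have h3 := hinj (fun j => x j - x' j) (fun i => by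
      have h4 := h1 i
      rw [h2, mul_zero, add_zero] at h4
      exact h4) h2
    ext i
    exact sub_eq_zero.1 (h3 i)
  have hU : IsUnit M := Matrix.mulVec_injective_iff_isUnit.1 hMi
  have hV : Function.Injective fun z : I → ZMod 2 => Matrix.vecMul z M :=
    Matrix.vecMul_injective_iff_isUnit.2 hU
  have h1 : Matrix.vecMul y M = Matrix.vecMul (fun i => (c + ∑ k, v k * y k) * u i) M := by
    ext j
    simp only [Matrix.vecMul, dotProduct, hM, Matrix.of_apply]
    have h2 : ∑ i, y i * (N i j + v i * w j) = (c + ∑ k, v k * y k) * w j := by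
      simp_rw [mul_add]
      rw [sum_add_distrib, hy j, add_mul, sum_mul]
      congr 1
      exact sum_congr rfl fun i _ => by ring
    have h3 : ∑ i, (c + ∑ k, v k * y k) * u i * (N i j + v i * w j) =
        (c + ∑ k, v k * y k) * (∑ i, u i * N i j) + (c + ∑ k, v k * y k) * (∑ i, v i * u i) * w j := by
      rw [mul_sum, mul_sum, sum_mul, ← sum_add_distrib]
      exact sum_congr rfl fun i _ => by ring
    rw [h2, h3, hu j, hvu]
    ring
  have h2 : ∀ i, y i = (c + ∑ k, v k * y k) * u i := fun i => congrFun (hV h1) i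
  have h3 : ∑ k, v k * y k = (c + ∑ k, v k * y k) * ∑ i, v i * u i := by
    conv_lhs => rw [sum_congr rfl fun k _ => by rw [h2 k]]
    rw [mul_sum]
    exact sum_congr rfl fun i _ => by ring
  rw [hvu, mul_one] at h3
  have h4 : c = 0 := left_eq_add.1 (h3.trans (add_comm _ _))
  refine ⟨h4, fun i => ?_⟩
  have h5 := h2 i
  rw [h4, zero_add] at h5
  exact h5

/-! ### The matrix -/

/-- the matrix -/
noncomputable def RM (κ : ZMod 2) (V : Finset ℕ) (q p : ℕ) : ZMod 2 :=
  if p = q then ∑ p' ∈ V.erase q, nr p' q + κ * uu q else nr p q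

theorem RM_right (κ : ZMod 2) {V : Finset ℕ} (x : ℕ → ZMod 2) {q : ℕ} (hq : q ∈ V) :
    ∑ p ∈ V, RM κ V q p * x p = ∑ p ∈ V, (x p + x q) * nr p q + κ * (x q * uu q) := by
  rw [← add_sum_erase V _ hq, ← add_sum_erase V (fun p => (x p + x q) * nr p q) hq,
    z2_add_self, zero_mul, zero_add]
  have h1 : ∑ p ∈ V.erase q, RM κ V q p * x p = ∑ p ∈ V.erase q, nr p q * x p :=
    sum_congr rfl fun p hp => by rw [RM, if_neg (ne_of_mem_erase hp)]
  have h2 : ∑ p ∈ V.erase q, (x p + x q) * nr p q =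
      ∑ p ∈ V.erase q, nr p q * x p + (∑ p ∈ V.erase q, nr p q) * x q := by
    rw [sum_mul, ← sum_add_distrib]
    exact sum_congr rfl fun p _ => by ring
  rw [h1, h2, RM, if_pos rfl]
  ring

theorem RM_left {κ : ZMod 2} {V : Finset ℕ} (hV : ∀ p ∈ V, Po p)
    (hκ : κ + ∑ p ∈ V, uu p = 1) (y : ℕ → ZMod 2) {p : ℕ} (hp : p ∈ V) :
    ∑ q ∈ V, y q * RM κ V q p = ∑ q ∈ V, (y q + y p) * nr p q := by
  rw [← add_sum_erase V _ hp, ← add_sum_erase V (fun q => (y q + y p) * nr p q) hp,
    z2_add_self, zero_mul, zero_add]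
  have h1 : ∑ q ∈ V.erase p, y q * RM κ V q p = ∑ q ∈ V.erase p, y q * nr p q :=
    sum_congr rfl fun q hq => by rw [RM, if_neg (ne_of_mem_erase hq).symm]
  have h2 : ∑ q ∈ V.erase p, (y q + y p) * nr p q =
      ∑ q ∈ V.erase p, y q * nr p q + y p * ∑ q ∈ V.erase p, nr p q := by
    rw [mul_sum, ← sum_add_distrib]
    exact sum_congr rfl fun q _ => by ring
  have h3 : ∑ q ∈ V.erase p, nr q p + κ * uu p = ∑ q ∈ V.erase p, nr p q := by
    have h4 : ∑ q ∈ V.erase p, nr q p = ∑ q ∈ V.erase p, (nr p q + uu p * uu q) := by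
      refine sum_congr rfl fun q hq => ?_
      have h5 := nr_recip (hV p hp) (hV q (mem_of_mem_erase hq)) (ne_of_mem_erase hq).symm
      rw [← h5, ← add_assoc, z2_add_self, zero_add]
    have h6 : ∑ q ∈ V.erase p, uu q = ∑ q ∈ V, uu q + uu p := by
      rw [← add_sum_erase V _ hp, add_comm, ← add_assoc, z2_add_self, zero_add]
    rw [h4, sum_add_distrib, ← mul_sum, h6]
    have h7 : uu p * (∑ q ∈ V, uu q + uu p) + κ * uu p = 0 := by
      have h8 : uu p * uu p = uu p := by
        rcases z2 (uu p) with h | h <;> rw [h] <;> decide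
      have h9 : κ = 1 + ∑ q ∈ V, uu q := by
        rw [← hκ, add_assoc, z2_add_self, add_zero]
      rw [mul_add, h8, h9]
      have h10 : ∀ a b : ZMod 2, a * b + a + (1 + b) * a = 0 := by decide
      exact h10 _ _
    rw [add_assoc, h7, add_zero]
  rw [h1, h2, RM, if_pos rfl, h3]
  ring

/-! ### The real side -/

theorem not_dvd_prod {q : ℕ} (hq : Po q) (T : Finset ℕ) (hT : ∀ p ∈ T, Po p) (h : q ∉ T) :
    ¬ (q : ℤ) ∣ ∏ p ∈ T, (p : ℤ) := by
  intro h1
  obtain ⟨p, hp, h2⟩ := ((Nat.prime_iff_prime_int.1 hq.1).dvd_finsetProd_iff _).1 h1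
  rw [Int.natCast_dvd_natCast] at h2
  exact h (((Nat.prime_dvd_prime_iff_eq hq.1 (hT p hp).1).1 h2) ▸ hp)

theorem ns_prod {q : ℕ} (hq : Po q) (T : Finset ℕ) (hT : ∀ p ∈ T, Po p) (h : q ∉ T) :
    ns q (∏ p ∈ T, (p : ℤ)) = ∑ p ∈ T, nr q p := by
  induction T using Finset.induction_on with
  | empty => rw [prod_empty, sum_empty, ns_one]
  | insert a S ha ih =>
    rw [prod_insert ha, sum_insert ha]
    have h1 : q ≠ a := fun e => h (e ▸ mem_insert_self a S)
    have h2 : q ∉ S := fun e => h (mem_insert_of_mem e)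
    have h3 : ∀ p ∈ S, Po p := fun p hp => hT p (mem_insert_of_mem hp)
    have h4 := hT a (mem_insert_self a S)
    have h5 : ¬ (q : ℤ) ∣ (a : ℤ) := by
      rw [Int.natCast_dvd_natCast]
      intro h6
      exact h1 ((Nat.prime_dvd_prime_iff_eq hq.1 h4.1).1 h6)
    rw [ns_mul hq.1 h5 (not_dvd_prod hq S h3 h2), ih h3 h2, ns_nat]

/-- the rows of a factorization -/
theorem real_rows {e : ℕ} (he : Squarefree e) (h2 : e % 2 = 1) {a b w : ℤ}
    (hab : (e : ℤ) = a * b) (ha : 0 < a) (hw : w = 1 ∨ w = 2)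
    (hc : ∀ q : ℕ, q.Prime → q ≠ 2 → (((q : ℤ) ∣ b → IsSquare ((w * a : ℤ) : ZMod q)) ∧
      ((q : ℤ) ∣ a → IsSquare ((w * b : ℤ) : ZMod q)))) :
    ∃ T ⊆ e.primeFactors, a = ∏ p ∈ T, (p : ℤ) ∧ ∀ q ∈ e.primeFactors,
      ∑ p ∈ e.primeFactors, ((if p ∈ T then (1 : ZMod 2) else 0) + (if q ∈ T then 1 else 0)) *
        nr q p = ns q w := by
  have hV : ∀ p ∈ e.primeFactors, Po p := po_of h2
  have he0 : 0 < e := Nat.pos_of_ne_zero he.ne_zero
  have hb : 0 < b := by
    by_contra hcon
    push Not at hcon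
    have h1 : a * b ≤ 0 := mul_nonpos_of_nonneg_of_nonpos ha.le hcon
    omega
  obtain ⟨A, rfl⟩ := Int.eq_ofNat_of_zero_le ha.le
  obtain ⟨B, rfl⟩ := Int.eq_ofNat_of_zero_le hb.le
  have hAB : e = A * B := by exact_mod_cast hab
  have hcop : A.Coprime B := Nat.coprime_of_squarefree_mul (hAB ▸ he)
  have hA : Squarefree A := he.squarefree_of_dvd (hAB ▸ Dvd.intro _ rfl)
  have hB : Squarefree B := he.squarefree_of_dvd (hAB ▸ Dvd.intro_left _ rfl)
  have hA0 : A ≠ 0 := hA.ne_zero
  have hB0 : B ≠ 0 := hB.ne_zero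
  have hTV : A.primeFactors ⊆ e.primeFactors := by
    rw [hAB, Nat.primeFactors_mul hA0 hB0]
    exact subset_union_left
  have hdis : Disjoint A.primeFactors B.primeFactors := hcop.disjoint_primeFactors
  have hVA : e.primeFactors \ A.primeFactors = B.primeFactors := by
    rw [hAB, Nat.primeFactors_mul hA0 hB0, union_sdiff_cancel_left hdis]
  have pA : (A : ℤ) = ∏ p ∈ A.primeFactors, (p : ℤ) := by
    rw [← Nat.cast_prod, Nat.prod_primeFactors_of_squarefree hA]
  have pB : (B : ℤ) = ∏ p ∈ B.primeFactors, (p : ℤ) := by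
    rw [← Nat.cast_prod, Nat.prod_primeFactors_of_squarefree hB]
  refine ⟨A.primeFactors, hTV, pA, fun q hq => ?_⟩
  have hq' := hV q hq
  have hqw : ¬ (q : ℤ) ∣ w := by
    rcases hw with rfl | rfl
    · intro h3
      exact hq'.1.one_lt.ne' (Nat.dvd_one.1 (by exact_mod_cast h3))
    · rw [show (2 : ℤ) = ((2 : ℕ) : ℤ) from rfl, Int.natCast_dvd_natCast]
      exact fun h => hq'.2 ((Nat.prime_dvd_prime_iff_eq hq'.1 Nat.prime_two).1 h)
  by_cases hqA : q ∈ A.primeFactors
  · have hqB : q ∉ B.primeFactors := fun h => disjoint_left.1 hdis hqA h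
    have h3 : ∑ p ∈ e.primeFactors, ((if p ∈ A.primeFactors then (1 : ZMod 2) else 0) +
        (if q ∈ A.primeFactors then 1 else 0)) * nr q p = ∑ p ∈ B.primeFactors, nr q p := by
      rw [← sum_sdiff hTV, hVA, sum_eq_zero (s := A.primeFactors) fun p hp => by
        rw [if_pos hp, if_pos hqA, z2_add_self, zero_mul], add_zero]
      refine sum_congr rfl fun p hp => ?_
      rw [if_neg (fun h => disjoint_left.1 hdis h hp), if_pos hqA, zero_add, one_mul]
    have hPB : ∀ p ∈ B.primeFactors, Po p := fun p hp => hV p (by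
      rw [hAB, Nat.primeFactors_mul hA0 hB0]
      exact mem_union_right _ hp)
    rw [h3, ← ns_prod hq' _ hPB hqB, ← pB]
    have h4 : ns q (w * B) = 0 := ns_zero.2 ((hc q hq'.1 hq'.2).2
      (Int.natCast_dvd_natCast.2 (Nat.dvd_of_mem_primeFactors hqA)))
    have h5 : ¬ (q : ℤ) ∣ (B : ℤ) := by
      rw [pB]
      exact not_dvd_prod hq' _ hPB hqB
    rw [ns_mul hq'.1 hqw h5] at h4
    exact (z2_eq_of_add h4).symm
  · have h3 : ∑ p ∈ e.primeFactors, ((if p ∈ A.primeFactors then (1 : ZMod 2) else 0) +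
        (if q ∈ A.primeFactors then 1 else 0)) * nr q p = ∑ p ∈ A.primeFactors, nr q p := by
      rw [← sum_sdiff hTV, sum_eq_zero (s := e.primeFactors \ A.primeFactors) fun p hp => by
        rw [if_neg (mem_sdiff.1 hp).2, if_neg hqA, zero_add, zero_mul], zero_add]
      refine sum_congr rfl fun p hp => ?_
      rw [if_pos hp, if_neg hqA, add_zero, one_mul]
    have hPA : ∀ p ∈ A.primeFactors, Po p := fun p hp => hV p (hTV hp)
    have hqB : q ∈ B.primeFactors := by
      rw [← hVA]
      exact mem_sdiff.2 ⟨hq, hqA⟩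
    rw [h3, ← ns_prod hq' _ hPA hqA, ← pA]
    have h4 : ns q (w * A) = 0 := ns_zero.2 ((hc q hq'.1 hq'.2).1
      (Int.natCast_dvd_natCast.2 (Nat.dvd_of_mem_primeFactors hqB)))
    have h5 : ¬ (q : ℤ) ∣ (A : ℤ) := by
      rw [pA]
      exact not_dvd_prod hq' _ hPA hqA
    rw [ns_mul hq'.1 hqw h5] at h4
    exact (z2_eq_of_add h4).symm

/-- a subset with constant indicator -/
theorem const_T {V T : Finset ℕ} (hT : T ⊆ V) {q₀ : ℕ}
    (h : ∀ p ∈ V, (if p ∈ T then (1 : ZMod 2) else 0) = if q₀ ∈ T then 1 else 0) :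
    T = ∅ ∨ T = V := by
  by_cases h1 : q₀ ∈ T
  · right
    refine Subset.antisymm hT fun p hp => ?_
    have h2 := h p hp
    rw [if_pos h1] at h2
    by_contra h3
    rw [if_neg h3] at h2
    exact zero_ne_one h2
  · left
    refine eq_empty_of_forall_notMem fun p hp => ?_
    have h2 := h p (hT hp)
    rw [if_neg h1, if_pos hp] at h2
    exact one_ne_zero h2

/-! ### The class of one -/

theorem ref1 {e : ℕ} (he : Squarefree e) (h8 : e % 8 = 1) (h1 : e ≠ 1) (h : Cr (-(e : ℤ))) :
    Cr7 (e : ℤ) := by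
  set V := e.primeFactors with hVd
  have hV : ∀ p ∈ V, Po p := po_of (by omega)
  have h4 : e % 4 = if (1 : ZMod 2) = 0 then 3 else 1 := by
    rw [if_neg (by decide)]
    omega
  have hG : Gd true 0 1 V := by
    have h2 := crit_iff (t := true) (r := 0) he h4 (fun h => by simp at h) (fun h => by simp at h)
    rw [if_neg (by decide)] at h2
    exact h2.2 h
  have hU : ∑ p ∈ V, uu p = 0 := by
    have h2 := uu_of he h4
    rw [h2]
    decide
  -- the kernel
  have hker : ∀ x : ℕ → ZMod 2, (∀ q ∈ V, ∑ p ∈ V, (x p + x q) * nr p q + x q * uu q = 0) →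
      ∑ p ∈ V, x p * nr p 2 = 0 → ∀ p ∈ V, x p = 0 := by
    intro x hx hx2
    have h2V : (2 : ℕ) ∉ V := fun h => (hV 2 h).2 rfl
    set x' : ℕ → ZMod 2 := fun p => if p = 2 then 0 else x p with hx'
    have hx'V : ∀ p ∈ V, x' p = x p := by
      intro p hp
      rw [hx']
      exact if_neg (hV p hp).2
    have hx'2 : x' 2 = 0 := if_pos rfl
    have h3 := hG x' (fun q hq => by
      rw [sum_Vt hV, if_pos rfl]
      rcases mem_Vt.1 hq with ⟨-, rfl⟩ | hq
      · rw [hx'2, add_zero, zero_mul, zero_add]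
        refine Eq.trans (sum_congr rfl fun p hp => ?_) hx2
        rw [hx'V p hp, add_zero, sy_odd (hV p hp)]
      · rw [hx'2, zero_add, sy_two, zero_mul, zero_add, one_mul, add_comm, hx'V q hq, ← hx q hq]
        congr 1
        refine sum_congr rfl fun p hp => ?_
        rw [hx'V p hp, sy_odd (hV p hp)])
    intro p hp
    have h5 := h3 p (mem_Vt.2 (Or.inr hp)) 2 (mem_Vt.2 (Or.inl ⟨rfl, rfl⟩))
    rw [hx'2, hx'V p hp] at h5
    exact h5
  -- a prime
  obtain ⟨q₀, hq₀⟩ : V.Nonempty := by
    rw [hVd, Nat.nonempty_primeFactors]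
    have := he.ne_zero
    omega
  -- the duality
  have key : ∀ (T : Finset ℕ) (α : ZMod 2), T ⊆ V → (∀ q ∈ V, ∑ p ∈ V,
      ((if p ∈ T then (1 : ZMod 2) else 0) + (if q ∈ T then 1 else 0)) * nr q p = α * nr q 2) →
      α = 0 ∧ (T = ∅ ∨ T = V) := by
    intro T α hT hrow
    set y : ℕ → ZMod 2 := fun p => if p ∈ T then 1 else 0 with hy
    have h5 := dual (I := V) (fun q p => RM 1 V q p) (fun _ => 1)
      (fun q => if (q : ℕ) = q₀ then 1 else 0) (fun p => nr p 2) ?_ ?_ ?_
      (y := fun q => y q) (c := α) ?_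
    · obtain ⟨h6, h7⟩ := h5
      refine ⟨h6, const_T hT (q₀ := q₀) fun p hp => ?_⟩
      have h8 := h7 ⟨p, hp⟩
      rw [mul_one, Finset.sum_eq_single (⟨q₀, hq₀⟩ : V), if_pos rfl, one_mul] at h8
      · exact h8
      · intro k _ hk
        rw [if_neg (fun h => hk (Subtype.ext h)), zero_mul]
      · intro h
        exact absurd (mem_univ _) h
    · intro p
      have h6 := RM_left (κ := 1) hV (by rw [hU]; decide) (fun _ => 1) p.2
      rw [← Finset.sum_coe_sort V (fun q => (1 : ZMod 2) * RM 1 V q p)] at h6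
      rw [h6]
      exact sum_eq_zero fun q _ => by rw [z2_add_self, zero_mul]
    · rw [Finset.sum_eq_single (⟨q₀, hq₀⟩ : V), if_pos rfl, one_mul]
      · intro k _ hk
        rw [if_neg (fun h => hk (Subtype.ext h)), zero_mul]
      · intro h
        exact absurd (mem_univ _) h
    · intro x hx hx2
      set z : ℕ → ZMod 2 := fun p => if h : p ∈ V then x ⟨p, h⟩ else 0 with hz
      have hzx : ∀ p : V, z p = x p := fun p => dif_pos p.2
      have h6 := hker z (fun q hq => ?_) ?_
      · intro i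
        rw [← hzx i]
        exact h6 i i.2
      · have h7 := RM_right 1 z hq
        rw [one_mul] at h7
        rw [← h7, ← Finset.sum_coe_sort V (fun p => RM 1 V q p * z p), ← hx ⟨q, hq⟩]
        exact sum_congr rfl fun p _ => by rw [hzx p]
      · rw [← hx2, ← Finset.sum_coe_sort V (fun p => z p * nr p 2)]
        exact sum_congr rfl fun p _ => by rw [hzx p, mul_comm]
    · intro p
      have h6 := RM_left (κ := 1) hV (by rw [hU]; decide) y p.2
      rw [← Finset.sum_coe_sort V (fun q => y q * RM 1 V q p)] at h6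
      rw [h6]
      exact hrow p p.2
  constructor
  · intro a b hab ha8 ha0 hc
    have hap : 0 < a := ha0 (by exact_mod_cast Nat.pos_of_ne_zero he.ne_zero)
    obtain ⟨T, hT, haT, hrow⟩ := real_rows he (by omega) (w := 1) hab hap (Or.inl rfl) (by
      intro q hq hq2
      rw [one_mul, one_mul]
      exact hc q hq hq2)
    obtain ⟨-, h5⟩ := key T 0 hT (fun q hq => by rw [hrow q hq, ns_one, zero_mul])
    rcases h5 with h5 | h5
    · left
      rw [haT, h5, prod_empty]
    · right
      rw [haT, h5, ← Nat.cast_prod, Nat.prod_primeFactors_of_squarefree he]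
  · intro a b hab ha8 ha0 hc
    have hap : 0 < a := ha0 (by exact_mod_cast Nat.pos_of_ne_zero he.ne_zero)
    obtain ⟨T, hT, haT, hrow⟩ := real_rows he (by omega) (w := 2) hab hap (Or.inr rfl) hc
    obtain ⟨h5, -⟩ := key T 1 hT (fun q hq => by
      rw [hrow q hq, one_mul]
      exact ns_nat q 2)
    exact one_ne_zero h5

/-! ### The class of seven -/

theorem ref7 (hTR : S_TRG) {e : ℕ} (he : Squarefree e) (h8 : e % 8 = 7) (h : Cr7 (-(e : ℤ))) :
    Cr (e : ℤ) := by
  set V := e.primeFactors with hVd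
  have hV : ∀ p ∈ V, Po p := po_of (by omega)
  have hG : Gd7 V := (hTR.2 e he h8).2 h
  have h4 : e % 4 = if (0 : ZMod 2) = 0 then 3 else 1 := by
    rw [if_pos rfl]
    omega
  have hU : ∑ p ∈ V, uu p = 1 := by
    have h2 := uu_of he h4
    rw [h2]
    decide
  -- the symbols of two
  have hτ : ∀ T ⊆ V, ∀ a : ℕ, a = ∏ p ∈ T, p → (a % 8 = 1 ∨ a % 8 = 7) → ∑ p ∈ T, nr p 2 = 0 := by
    intro T hT a ha ha8
    by_contra hcon
    have h3 := prod_star_mod T fun p hp => hV p (hT hp)
    rw [if_neg hcon] at h3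
    have h5 := prod_star_sign T
    have h6 : ∏ p ∈ T, (p : ℤ) = (a : ℤ) := by
      rw [ha]
      push_cast
      rfl
    rw [h6] at h5
    rw [h5] at h3
    split_ifs at h3 <;> omega
  have hτV : ∑ p ∈ V, nr p 2 = 0 := hτ V (Subset.refl _) e
    (Nat.prod_primeFactors_of_squarefree he).symm (Or.inr h8)
  obtain ⟨q₀, hq₀⟩ : V.Nonempty := by
    rw [hVd, Nat.nonempty_primeFactors]
    have := he.ne_zero
    omega
  intro a b hab ha8 ha0 hc
  have hap : 0 < a := ha0 (by exact_mod_cast Nat.pos_of_ne_zero he.ne_zero)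
  obtain ⟨T, hT, haT, hrow⟩ := real_rows he (by omega) (w := 1) hab hap (Or.inl rfl) (by
    intro q hq hq2
    rw [one_mul, one_mul]
    exact hc q hq hq2)
  set y : ℕ → ZMod 2 := fun p => if p ∈ T then 1 else 0 with hy
  have hyT : ∑ p ∈ V, y p * nr p 2 = 0 := by
    have h5 : ∑ p ∈ V, y p * nr p 2 = ∑ p ∈ T, nr p 2 := by
      rw [← sum_sdiff hT, sum_eq_zero (s := V \ T) fun p hp => by
        rw [hy]
        simp only
        rw [if_neg (mem_sdiff.1 hp).2, zero_mul], zero_add]
      refine sum_congr rfl fun p hp => ?_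
      rw [hy]
      simp only
      rw [if_pos hp, one_mul]
    rw [h5]
    refine hτ T hT a.natAbs ?_ (Or.inl (by omega))
    rw [haT, ← Nat.cast_prod, Int.natAbs_natCast]
  -- the duality
  have h5 := dual (I := Option V) (fun i j => match i, j with
      | some q, some p => RM 0 V q p
      | some q, none => nr q 2
      | none, some p => nr p 2
      | none, none => 0) (fun i => match i with
      | some _ => 1
      | none => 0) (fun i => match i with
      | some q => if (q : ℕ) = q₀ then 1 else 0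
      | none => 0) (fun i => match i with
      | some q => if (q : ℕ) = q₀ then 1 else 0
      | none => 0) ?_ ?_ ?_ (y := fun i => match i with
      | some q => y q
      | none => 0) (c := 0) ?_
  · obtain ⟨-, h7⟩ := h5
    have h8' := const_T hT (q₀ := q₀) fun p hp => by
      have h8 := h7 (some ⟨p, hp⟩)
      simp only [Fintype.sum_option, zero_mul, zero_add, mul_one] at h8
      rw [Finset.sum_eq_single (⟨q₀, hq₀⟩ : V), if_pos rfl, one_mul] at h8
      · exact h8
      · intro k _ hk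
        rw [if_neg (fun h => hk (Subtype.ext h)), zero_mul]
      · intro h
        exact absurd (mem_univ _) h
    rcases h8' with h9 | h9
    · rw [haT, h9, prod_empty]
    · exfalso
      rw [h9, ← Nat.cast_prod, Nat.prod_primeFactors_of_squarefree he] at haT
      omega
  · intro j
    rcases j with _ | p
    · simp only [Fintype.sum_option, zero_mul, zero_add, one_mul]
      rw [Finset.sum_coe_sort V (fun q => nr q 2)]
      exact hτV
    · simp only [Fintype.sum_option, zero_mul, zero_add]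
      have h6 := RM_left (κ := 0) hV (by rw [hU]; decide) (fun _ => 1) p.2
      rw [← Finset.sum_coe_sort V (fun q => (1 : ZMod 2) * RM 0 V q p)] at h6
      rw [h6]
      exact sum_eq_zero fun q _ => by rw [z2_add_self, zero_mul]
  · simp only [Fintype.sum_option, zero_mul, zero_add]
    rw [Finset.sum_eq_single (⟨q₀, hq₀⟩ : V), if_pos rfl, one_mul]
    · intro k _ hk
      rw [if_neg (fun h => hk (Subtype.ext h)), zero_mul]
    · intro h
      exact absurd (mem_univ _) h
  · intro x hx hx2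
    set z : ℕ → ZMod 2 := fun p => if h : p ∈ V then x (some ⟨p, h⟩) else 0 with hz
    have hzx : ∀ p : V, z p = x (some p) := fun p => dif_pos p.2
    have h6 := hG z (x none) (fun q hq => ?_) ?_
    · obtain ⟨h7, h9⟩ := h6
      simp only [Fintype.sum_option, zero_mul, zero_add] at hx2
      rw [Finset.sum_eq_single (⟨q₀, hq₀⟩ : V), if_pos rfl, one_mul] at hx2
      · intro i
        rcases i with _ | i
        · exact h9
        · rw [← hzx i, h7 i i.2 q₀ hq₀, hzx ⟨q₀, hq₀⟩]
          exact hx2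
      · intro k _ hk
        rw [if_neg (fun h => hk (Subtype.ext h)), zero_mul]
      · intro h
        exact absurd (mem_univ _) h
    · have h7 := RM_right 0 z hq
      rw [zero_mul, add_zero] at h7
      have h9 := hx (some ⟨q, hq⟩)
      simp only [Fintype.sum_option] at h9
      refine Eq.trans ?_ h9
      rw [← h7, ← Finset.sum_coe_sort V (fun p => RM 0 V q p * z p), add_comm, mul_comm (x none)]
      congr 1
      exact sum_congr rfl fun p _ => by rw [hzx p]
    · have h9 := hx none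
      simp only [Fintype.sum_option, zero_mul, zero_add] at h9
      rw [← h9, ← Finset.sum_coe_sort V (fun p => z p * nr p 2)]
      exact sum_congr rfl fun p _ => by rw [hzx p, mul_comm]
  · intro j
    rcases j with _ | p
    · simp only [Fintype.sum_option, zero_mul, zero_add]
      rw [Finset.sum_coe_sort V (fun q => y q * nr q 2)]
      exact hyT
    · simp only [Fintype.sum_option, zero_mul, zero_add]
      have h6 := RM_left (κ := 0) hV (by rw [hU]; decide) y p.2
      rw [← Finset.sum_coe_sort V (fun q => y q * RM 0 V q p)] at h6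
      rw [h6, ← ns_one (p : ℕ)]
      exact hrow p p.2

/-- **The reflection.** -/
theorem t_REF (hTR : S_TRG) {e : ℕ} (he : Squarefree e) (h : CrE (-(e : ℤ))) : CrE (e : ℤ) := by
  have h0 : e % 4 ≠ 0 := by
    intro h4
    have h5 : 2 * 2 ∣ e := by omega
    exact absurd (Nat.isUnit_iff.1 (he 2 h5)) (by norm_num)
  unfold CrE at h ⊢
  by_cases h1 : e = 1
  · subst h1
    rw [if_neg (by decide)]
    exact crit_unit (Or.inl rfl)
  have h8 : e % 8 = 1 ∨ e % 8 = 7 ∨ (e % 8 = 2 ∨ e % 8 = 3 ∨ e % 8 = 5 ∨ e % 8 = 6) := by omega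
  rcases h8 with h8 | h8 | h8
  · rw [if_neg (by omega)] at h
    rw [if_pos ⟨by omega, by exact_mod_cast h1⟩]
    exact ref1 he h8 h1 h
  · rw [if_pos ⟨by omega, by omega⟩] at h
    rw [if_neg (by omega)]
    exact ref7 hTR he h8 h
  · rw [if_neg (by omega)] at h
    rw [if_neg (by omega)]
    exact crit_pos_of_neg he h8 h

end Pool.Agent.L0h1.JS
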