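import Pool.Agent.L0h1.JS.SCH
import Pool.Agent.L0h1.JS.REF

/-!
# Project JS: all twists, all classes
-/

set_option autoImplicit false
set_option linter.unusedVariables false

open scoped Classical

namespace Pool.Agent.L0h1.JS

open Finset Filter
open Pool.Agent.L0h86.JR (Cr nR sqf amR)
open Pool.Agent.L0h86.JS (Cr7 CrG CrE FamG S_LAWG S_VMQN S_TRG)
open Pool.Agent.L0h1.SJ (GA sqf_spec sqf_unique prod_ne mem_GA GA_eq GA_fin nR_congr amR_true
  sqf_self eta_pos SqF SqF_eq SqF_mono GA_one SqI SqI_eq)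
open Pool.Agent.Results.MP_59f3ad_nt.QuadraticFieldsNaturalDensity (QBar Gal SqrtField ShaZero
  fix_eq)

/-- the good sets of positive integers -/
def GoodE (A : Finset ℕ) : Prop := ∀ e ∈ GA A, CrE (-(e : ℤ))

theorem crE_iff (e : ℕ) : CrE (-(e : ℤ)) ↔ CrG (-(e : ℤ)) := by
  unfold CrE CrG
  have h1 : (-(e : ℤ)) ≠ 1 := by omega
  by_cases h : (-(e : ℤ)) % 8 = 1
  · rw [if_pos ⟨h, h1⟩, if_pos h]
  · rw [if_neg (fun h' => h h'.1), if_neg h]

theorem goodE_iff (A : Finset ℕ) : GoodE A ↔ GoodG A := by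
  unfold GoodE GoodG
  exact forall₂_congr fun e _ => crE_iff e

theorem SqI_mono {B C : Set ℕ} (h : B ⊆ C) : SqI B ≤ SqI C := by
  refine IntermediateField.adjoin.mono ℚ _ _ ?_
  rintro x (hx | ⟨b, hb, hx⟩)
  · exact Or.inl hx
  · exact Or.inr ⟨b, h hb, hx⟩

/-- the criterion for the products -/
theorem good_intE (hTR : S_TRG) {A : Finset ℕ} (h0 : 0 ∉ A) (hA : GoodE A) (k : ℤ) (T : Finset ℤ)
    (hT : T ⊆ insert (-1) (A.image fun a : ℕ => (a : ℤ))) (e f : ℤ) (hef : ∏ a ∈ T, a = e * f ^ 2)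
    (he : Squarefree e) : (Even k → CrE e) ∧ (Odd k → CrE (-e)) := by
  have hneg : ∀ e ∈ GA A, CrE (-(e : ℤ)) := hA
  have hpos : ∀ e ∈ GA A, CrE (e : ℤ) := fun e he => t_REF hTR he.1 (hA e he)
  -- the subset of `A`
  set T₀ : Finset ℕ := A.filter fun a => (a : ℤ) ∈ T with hT₀
  have hsub : T₀ ⊆ A := Finset.filter_subset _ _
  have hprod : ∏ a ∈ T.erase (-1), a = ((∏ a ∈ T₀, a : ℕ) : ℤ) := by
    have hTT : T.erase (-1) = T₀.image fun a : ℕ => (a : ℤ) := by
      ext x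
      rw [mem_image, mem_erase]
      constructor
      · rintro ⟨hx1, hx⟩
        rcases mem_insert.1 (hT hx) with h | h
        · exact absurd h hx1
        · obtain ⟨a, ha, rfl⟩ := mem_image.1 h
          exact ⟨a, mem_filter.2 ⟨ha, hx⟩, rfl⟩
      · rintro ⟨a, ha, rfl⟩
        exact ⟨by omega, (mem_filter.1 ha).2⟩
    rw [hTT, Finset.prod_image fun a _ b _ h => by exact_mod_cast h]
    push_cast
    rfl
  have habs : ((∏ a ∈ T₀, a : ℕ)) = e.natAbs * f.natAbs ^ 2 := by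
    have h1 : (∏ a ∈ T, a).natAbs = (∏ a ∈ T.erase (-1), a).natAbs := by
      by_cases h : (-1 : ℤ) ∈ T
      · rw [← Finset.mul_prod_erase T (fun a => a) h, Int.natAbs_mul]
        simp
      · rw [Finset.erase_eq_of_notMem h]
    rw [hef, hprod, Int.natAbs_natCast, Int.natAbs_mul, Int.natAbs_pow] at h1
    exact h1.symm
  have hmem : e.natAbs ∈ GA A := ⟨Int.squarefree_natAbs.2 he, T₀, hsub, f.natAbs, habs⟩
  rcases Int.natAbs_eq e with h | h
  · rw [h]
    exact ⟨fun _ => hpos _ hmem, fun _ => hneg _ hmem⟩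
  · rw [h, neg_neg]
    exact ⟨fun _ => hneg _ hmem, fun _ => hpos _ hmem⟩

open Pool.Agent.N848.Q (fixs root_or' descend G) in
/-- **Schneider's conjecture, all twists.** -/
theorem schE (hV : S_VMQN) (hTR : S_TRG) {A : Finset ℕ} (h0 : 0 ∉ A) (hA : GoodE A) {r : ℤ}
    (hr : r ≠ 0) {L : IntermediateField ℚ QBar} (hL : L ≤ SqI (A : Set ℕ)) : ShaZero L r := by
  intro c hc hsha
  set A' : Finset ℤ := insert (-1) (A.image fun a : ℕ => (a : ℤ)) with hA'
  have h0' : (0 : ℤ) ∉ A' := by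
    rw [hA', mem_insert, mem_image]
    rintro (h | ⟨a, ha, h⟩)
    · norm_num at h
    · have : a = 0 := by exact_mod_cast h
      exact h0 (this ▸ ha)
  -- the square roots
  have hex : ∀ a : ℤ, ∃ x : QBar, x ^ 2 = if a = 0 then 1 else (a : QBar) := fun a =>
    IsAlgClosed.exists_pow_nat_eq _ (by norm_num)
  choose s hs using hex
  have hs0 : ∀ a, s a ≠ 0 := by
    intro a h
    have h1 := hs a
    rw [h] at h1
    split_ifs at h1 with h2
    · norm_num at h1
    · apply h2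
      have h3 : (a : QBar) = 0 := by rw [← h1]; ring
      exact_mod_cast h3
  have hsA : ∀ a ∈ A', s a ^ 2 = a := by
    intro a ha
    rw [hs a, if_neg]
    rintro rfl
    exact h0' ha
  have hor : ∀ a (σ : G), σ (s a) = s a ∨ σ (s a) = -s a := by
    intro a σ
    refine root_or' (a := if a = 0 then 1 else a) ?_ σ
    rw [hs a]
    split_ifs <;> simp
  have hle : fixs s A' ≤ L.fixingSubgroup := by
    rw [← fix_eq A' s hsA, hA', ← SqI_eq]
    exact IntermediateField.fixingSubgroup_antitone hL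
  have hn : (fixs s A').Normal := by
    refine ⟨fun σ hσ τ a ha => ?_⟩
    have h1 := hσ a ha
    rcases hor a τ⁻¹ with h2 | h2
    · rw [AlgEquiv.mul_apply, AlgEquiv.mul_apply, h2, h1]
      have h3 := congrArg τ h2
      rw [← AlgEquiv.mul_apply, mul_inv_cancel, AlgEquiv.one_apply] at h3
      exact h3.symm
    · rw [AlgEquiv.mul_apply, AlgEquiv.mul_apply, h2, map_neg, h1]
      have h3 := congrArg τ h2
      rw [← AlgEquiv.mul_apply, mul_inv_cancel, AlgEquiv.one_apply] at h3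
      exact h3.symm
  have hsq : ∀ σ : G, σ * σ ∈ fixs s A' := by
    intro σ a _
    rw [AlgEquiv.mul_apply]
    rcases hor a σ with h | h
    · rw [h, h]
    · rw [h, map_neg, h, neg_neg]
  obtain ⟨z, hz⟩ := descend hle hn hr hsq
    (hV s hs0 hor A' hsA r hr fun T hT e f h1 h2 => good_intE hTR h0 hA r T hT e f h1 h2)
    c hc.cont hc.mul (fun p _ ι hp σ hσ => hsha.odd p ι hp σ hσ) (fun ι => hsha.two ι)
  exact ⟨z, fun σ _ => hz σ⟩

/-- **The extensions of a good set.** -/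
theorem ext_ofE (hL : S_LAWG) {A : Finset ℕ} (h0 : 0 ∉ A) (hA : GoodE A) {q : ℕ} (hq : 0 < q)
    (r : ℕ) (hF : ∃ m, FamG q r m) :
    Tendsto (fun X : ℕ => (nR (FamG q r) (fun m => GoodE (insert m A)) X : ℝ) /
      nR (FamG q r) (fun _ => True) X) atTop
      (nhds (Pool.Agent.N916.GB.eta ^ (GA A).ncard)) := by
  refine (ext_ofG hL h0 ((goodE_iff A).1 hA) hq r hF).congr fun X => ?_
  rw [nR_congr (C := FamG q r) (C' := FamG q r) (fun m => Iff.rfl)
    (fun m _ => goodE_iff (insert m A)) X]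

/-- **The tower over a good set.** -/
theorem towerE (hL : S_LAWG) {k c : ℕ} (hk : 0 < k) (hc : c.Coprime k) {A₀ : Finset ℕ}
    (h0 : 0 ∉ A₀) (hA : GoodE A₀) :
    ∃ B : Set ℕ, (A₀ : Set ℕ) ⊆ B ∧ B.Infinite ∧
      (∀ b ∈ B, b ∉ A₀ → Squarefree b ∧ 1 < b ∧ b ≡ c [MOD k] ∧
        ∀ a ∈ B, a ≠ b → a.Coprime b) ∧ ∀ A : Finset ℕ, (A : Set ℕ) ⊆ B → 0 ∉ A ∧ GoodE A := by
  obtain ⟨B, h1, h2, h3, h4⟩ := towerG hL hk hc h0 ((goodE_iff A₀).1 hA)
  exact ⟨B, h1, h2, h3, fun A hAB => ⟨(h4 A hAB).1, (goodE_iff A).2 (h4 A hAB).2⟩⟩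

/-- the good sets with one element -/
theorem good_oneE {n : ℕ} (hn : n ≠ 0) (h : CrE (-((sqf n : ℕ) : ℤ))) : GoodE {n} :=
  (goodE_iff _).2 (good_oneG hn ((crE_iff _).1 h))

/-- **The joint law.** -/
theorem lawE (hL : S_LAWG) (t : ℕ) (d : Fin t → ℕ) (hd : ∀ l, 0 < d l)
    (hinj : Function.Injective (fun l => sqf (d l))) (q r : ℕ) (hq : 0 < q)
    (hF : ∃ m₀, FamG q r m₀) (β : Fin t → Bool) : Tendsto (fun X : ℕ =>
    (nR (FamG q r) (fun m => ∀ l, (CrE (-(sqf (d l * m) : ℤ)) ↔ β l = true)) X : ℝ) /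
    (nR (FamG q r) (fun _ => True) X : ℝ)) atTop (nhds (amR β)) := by
  refine (hL t d hd hinj q r hq hF β).congr fun X => ?_
  rw [nR_congr (C := FamG q r) (C' := FamG q r) (fun m => Iff.rfl)
    (Q' := fun m => ∀ l, (CrE (-(sqf (d l * m) : ℤ)) ↔ β l = true))
    (fun m _ => forall_congr' fun l => by rw [crE_iff]) X]

/-- a number field in the field of square roots is generated by finitely many of them -/
theorem fin_subI {B : Set ℕ} {L : IntermediateField ℚ QBar} [FiniteDimensional ℚ L]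
    (hL : L ≤ SqI B) : ∃ A : Finset ℕ, (A : Set ℕ) ⊆ B ∧ L ≤ SqI (A : Set ℕ) := by
  -- every element
  have h1 : ∀ x ∈ L, ∃ A : Finset ℕ, (A : Set ℕ) ⊆ B ∧ x ∈ SqI (A : Set ℕ) := by
    intro x hx
    obtain ⟨T, hT, hxT⟩ := IntermediateField.exists_finset_of_mem_adjoin (hL hx)
    have h2 : ∀ y ∈ T, ∃ A : Finset ℕ, (A : Set ℕ) ⊆ B ∧ y ∈ SqI (A : Set ℕ) := by
      intro y hy
      rcases hT hy with h | ⟨b, hb, h⟩
      · exact ⟨∅, by simp, IntermediateField.subset_adjoin ℚ _ (Or.inl h)⟩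
      · refine ⟨{b}, by simpa using hb, IntermediateField.subset_adjoin ℚ _ (Or.inr ⟨b, ?_, h⟩)⟩
        rw [Finset.coe_singleton]
        exact Set.mem_singleton b
    choose! b hb using h2
    refine ⟨T.biUnion b, ?_, ?_⟩
    · intro a ha
      rw [Finset.mem_coe, mem_biUnion] at ha
      obtain ⟨y, hy, hay⟩ := ha
      exact (hb y hy).1 hay
    · have h3 : IntermediateField.adjoin ℚ (T : Set QBar) ≤
          SqI ((T.biUnion b : Finset ℕ) : Set ℕ) := by
        rw [IntermediateField.adjoin_le_iff]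
        intro y hy
        refine SqI_mono ?_ (hb y hy).2
        intro a ha
        rw [Finset.mem_coe, mem_biUnion]
        exact ⟨y, hy, ha⟩
      exact h3 hxT
  choose! A hA using h1
  -- a basis
  let v := Module.finBasis ℚ L
  refine ⟨univ.biUnion fun i => A (v i : QBar), ?_, ?_⟩
  · intro a ha
    rw [Finset.mem_coe, mem_biUnion] at ha
    obtain ⟨i, -, hi⟩ := ha
    exact (hA (v i : QBar) (v i).2).1 hi
  · intro x hx
    have h2 := v.sum_repr ⟨x, hx⟩
    obtain ⟨c, hc⟩ : ∃ c : _ → ℚ, x = ∑ i, c i • (v i : QBar) := by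
      refine ⟨fun i => v.repr ⟨x, hx⟩ i, ?_⟩
      have h4 : ((∑ i, (v.repr ⟨x, hx⟩ i) • v i : L) : QBar) = x :=
        congrArg (fun y : L => (y : QBar)) h2
      refine h4.symm.trans ?_
      push_cast
      rfl
    rw [hc]
    refine sum_mem fun i _ => ?_
    refine IntermediateField.smul_mem _ ?_
    refine SqI_mono ?_ (hA (v i : QBar) (v i).2).2
    intro a ha
    rw [Finset.mem_coe, mem_biUnion]
    exact ⟨i, mem_univ _, ha⟩

end Pool.Agent.L0h1.JS
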