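import Pool.Agent.L0h1.JS.Defs
import Pool.Agent.L0h1.JS.SCHE

/-!
# Schneider's conjecture for `p = 2`, all twists, all classes: the final steps
-/

set_option autoImplicit false

namespace Pool.Agent.L0h1.JS.D

open Filter
open Pool.Agent.L0h86.JS (S_LAWG S_VMQN S_TRG)

theorem conv (L : IntermediateField ℚ QBar) (r : ℤ)
    (h : Pool.Agent.Results.MP_59f3ad_nt.QuadraticFieldsNaturalDensity.ShaZero L r) :
    ShaZero L r := by
  intro c hc hs
  exact h c ⟨hc.cont, hc.mul⟩ ⟨hs.odd, hs.two⟩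

open scoped Classical in
theorem count_eq (C Q : ℕ → Prop) (X : ℕ) :
    count (fun m => C m ∧ Q m) X = (Pool.Agent.L0h86.JR.nR C Q X : ℝ) := by
  unfold count Pool.Agent.L0h86.JR.nR
  rw [← Set.ncard_coe_finset]
  congr 2
  ext m
  simp only [Set.mem_ofPred_eq, Finset.coe_filter, Finset.mem_Icc]
  tauto

theorem count_true (C : ℕ → Prop) (X : ℕ) :
    count C X = (Pool.Agent.L0h86.JR.nR C (fun _ => True) X : ℝ) := by
  rw [← count_eq]
  simp only [and_true]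

theorem count_mono {P Q : ℕ → Prop} (h : ∀ m, P m → Q m) (X : ℕ) : count P X ≤ count Q X := by
  unfold count
  refine Nat.cast_le.2 (Set.ncard_le_ncard ?_ ?_)
  · rintro m ⟨h1, h2, h3⟩
    exact ⟨h1, h2, h m h3⟩
  · exact (Set.finite_Icc 1 X).subset fun m hm => ⟨hm.1, hm.2.1⟩

theorem count_nonneg (P : ℕ → Prop) (X : ℕ) : 0 ≤ count P X := Nat.cast_nonneg _

/-- from the limit to the inequality -/
theorem ineq {P F R : ℕ → Prop} {c : ℝ}
    (h : Tendsto (fun X : ℕ => count (fun m => F m ∧ P m) X / count F X) atTop (nhds c))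
    (hR : ∀ m, F m → P m → R m) {ε : ℝ} (hε : 0 < ε) :
    ∃ X₀ : ℕ, ∀ X : ℕ, X₀ ≤ X → (c - ε) * count F X ≤ count (fun m => F m ∧ R m) X := by
  have h1 := h.eventually_const_lt (show c - ε < c by linarith)
  obtain ⟨X₀, hX₀⟩ := eventually_atTop.1 h1
  refine ⟨X₀, fun X hX => ?_⟩
  have h2 := hX₀ X hX
  have h3 : count (fun m => F m ∧ P m) X ≤ count (fun m => F m ∧ R m) X :=
    count_mono (fun m hm => ⟨hm.1, hR m hm.1 hm.2⟩) X
  rcases (count_nonneg F X).lt_or_eq with h4 | h4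
  · rw [lt_div_iff₀ h4] at h2
    linarith
  · rw [← h4, mul_zero]
    exact count_nonneg _ _

theorem all_of (hV : S_VMQN) (hTR : S_TRG) {A : Finset ℕ} (h0 : 0 ∉ A) (hA : GoodSet A) :
    AllTwists (A : Set ℕ) :=
  fun _ hr L hL => conv L _ (Pool.Agent.L0h1.JS.schE hV hTR h0 hA hr hL)

theorem ext_lim (hLW : S_LAWG) {A : Finset ℕ} (h0 : 0 ∉ A) (hA : GoodSet A) {q : ℕ} (hq : 0 < q)
    (r : ℕ) (hF : ∃ m, Fam q r m) :
    Tendsto (fun X : ℕ => count (fun m => Fam q r m ∧ GoodSet (insert m A)) X /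
      count (Fam q r) X) atTop (nhds (eta ^ Module.finrank ℚ (SqF (A : Set ℕ)))) := by
  have h1 := Pool.Agent.L0h1.JS.ext_ofE hLW h0 hA hq r hF
  have h2 : Module.finrank ℚ (SqF (A : Set ℕ)) = (Pool.Agent.L0h1.SJ.GA A).ncard :=
    Pool.Agent.L0h1.SJ.degree h0
  rw [h2]
  refine h1.congr fun X => ?_
  rw [count_eq, count_true]
  rfl

theorem ext_ineq (hLW : S_LAWG) (hV : S_VMQN) (hTR : S_TRG) {A : Finset ℕ} (h0 : 0 ∉ A)
    (hA : GoodSet A) {q : ℕ} (hq : 0 < q) (r : ℕ) (hF : ∃ m, Fam q r m) (ε : ℝ) (hε : 0 < ε) :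
    ∃ X₀ : ℕ, ∀ X : ℕ, X₀ ≤ X →
      (eta ^ Module.finrank ℚ (SqF (A : Set ℕ)) - ε) * count (Fam q r) X ≤
        count (fun m => Fam q r m ∧ AllTwists (insert m (A : Set ℕ))) X := by
  refine ineq (ext_lim hLW h0 hA hq r hF) (fun m hm hG => ?_) hε
  rw [← Finset.coe_insert]
  refine all_of hV hTR ?_ hG
  rw [Finset.mem_insert]
  rintro (h | h)
  · exact hm.1.ne_zero h.symm
  · exact h0 h

theorem tower (hLW : S_LAWG) (hV : S_VMQN) (hTR : S_TRG) {A : Finset ℕ} (h0 : 0 ∉ A)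
    (hA : GoodSet A) {k c : ℕ} (hk : 0 < k) (hc : c.Coprime k) :
    ∃ B : Set ℕ, (A : Set ℕ) ⊆ B ∧ B.Infinite ∧
      (∀ b ∈ B, b ∉ A → Squarefree b ∧ 1 < b ∧ b ≡ c [MOD k] ∧
        ∀ a ∈ B, a ≠ b → a.Coprime b) ∧
      ¬ FiniteDimensional ℚ (SqF B) ∧
      ∀ L : IntermediateField ℚ QBar, FiniteDimensional ℚ L → L ≤ SqI B →
        ∀ r : ℤ, r ≠ 0 → ShaZero L r := by
  obtain ⟨B, hB1, hB2, hB3, hB4⟩ := Pool.Agent.L0h1.JS.towerE hLW hk hc h0 hA
  refine ⟨B, hB1, hB2, hB3, ?_, ?_⟩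
  · refine Pool.Agent.L0h1.SJ.inf_degree ?_
    have h1 : (B \ (A : Set ℕ)).Infinite := hB2.sdiff A.finite_toSet
    refine h1.mono fun b hb => ⟨hb.1, (hB3 b hb.1 hb.2).1⟩
  · intro L hfd hL r hr
    obtain ⟨A', hA', hL'⟩ := Pool.Agent.L0h1.JS.fin_subI (L := L) hL
    obtain ⟨c1, c2⟩ := hB4 A' hA'
    exact all_of hV hTR c1 c2 r hr L hL'

theorem joint (hLW : S_LAWG) (t : ℕ) (d : Fin t → ℕ) (hd : ∀ l, 0 < d l)
    (hinj : Function.Injective (fun l => sqf (d l))) (q r : ℕ) (hq : 0 < q)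
    (hF : ∃ m, Fam q r m) (β : Fin t → Bool) :
    Tendsto (fun X : ℕ =>
      count (fun m => Fam q r m ∧ ∀ l, (CondE (-(sqf (d l * m) : ℤ)) ↔ β l = true)) X /
        count (Fam q r) X) atTop (nhds (∏ l, if β l = true then eta else 1 - eta)) := by
  have h1 := Pool.Agent.L0h1.JS.lawE hLW t d hd hinj q r hq hF β
  refine h1.congr fun X => ?_
  rw [count_eq, count_true]
  rfl

theorem joint_ineq (hLW : S_LAWG) (hV : S_VMQN) (hTR : S_TRG) (t : ℕ) (d : Fin t → ℕ)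
    (hd : ∀ l, 0 < d l) (hinj : Function.Injective (fun l => sqf (d l))) (q r : ℕ) (hq : 0 < q)
    (hF : ∃ m, Fam q r m) (ε : ℝ) (hε : 0 < ε) : ∃ X₀ : ℕ, ∀ X : ℕ, X₀ ≤ X →
      (eta ^ t - ε) * count (Fam q r) X ≤
        count (fun m => Fam q r m ∧ ∀ l, AllTwists {d l * m}) X := by
  have h1 := joint hLW t d hd hinj q r hq hF (fun _ => true)
  simp only [if_true, Finset.prod_const, Finset.card_univ, Fintype.card_fin] at h1
  refine ineq h1 (fun m hm hG l => ?_) hε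
  have hn : d l * m ≠ 0 := mul_ne_zero (hd l).ne' hm.1.ne_zero
  have h2 : GoodSet {d l * m} := Pool.Agent.L0h1.JS.good_oneE hn ((hG l).2 trivial)
  have h3 := all_of hV hTR (A := {d l * m}) (by
    rw [Finset.mem_singleton]
    exact hn.symm) h2
  rw [Finset.coe_singleton] at h3
  exact h3

end Pool.Agent.L0h1.JS.D
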