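import Pool.Agent.L0h1.SJ.LAJ
import Pool.Agent.L0h84.JS.BOXG
import Pool.Agent.L0h89.JS.EQ7
import Pool.Agent.L0h89.JS.SM0
import Pool.Agent.L0h86.JS.KYG
import Pool.Agent.L0h86.JR.FEWR
import Pool.Agent.L0h60.JR.CL7
import Pool.Agent.L0h60.JR.NDR
import Pool.Agent.L0h60.JR.TRR
import Pool.Agent.L0h2.JS.DG
import Pool.Agent.L0h26.JS.HYG
import Pool.Agent.L0h2.P.CLS
import Pool.Agent.L0h2.P.KEYG
import Pool.Agent.L0h85.JS.TRG
import Pool.Agent.L0h81.JS.LAWG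
import Pool.Agent.L0h36.JS.LOC7
import Pool.Agent.L0h86.JS.VANN
import Pool.Agent.L0h63.JS.VMQN

/-!
# Project JS: the joint law in all classes and the vanishing, assembled
-/

set_option autoImplicit false

namespace Pool.Agent.L0h1.JS

open Pool.Agent.L0h86.JS

/-- the joint law in the boxes -/
theorem a_BOXG : S_BOXG :=
  Pool.Agent.L0h84.JS.t_BOXG Pool.Agent.L0h1.SJ.a_LAT Pool.Agent.L0h89.JS.t_EQ7

/-- the joint law on the regular sets -/
theorem a_KYG : S_KYG := t_KYG Pool.Agent.L0h2.P.KEYG.t_KEYG a_BOXG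

/-- the joint law in a class -/
theorem a_DG : S_DG := Pool.Agent.L0h2.JS.t_DG a_KYG Pool.Agent.L0h86.JR.t_FEWR
  Pool.Agent.L0h60.JR.t_CL7 Pool.Agent.L0h60.JR.t_NDR Pool.Agent.L0h89.JS.t_SM0

/-- the systems of the numbers -/
theorem a_HYG : S_HYG :=
  Pool.Agent.L0h26.JS.t_HYG Pool.Agent.L0h2.P.t_CLS Pool.Agent.L0h60.JR.t_CL7

/-- **The joint law of the 4-ranks, all classes.** -/
theorem a_LAWG : S_LAWG :=
  Pool.Agent.L0h81.JS.t_LAWG a_DG a_HYG Pool.Agent.L0h60.JR.t_TRR Pool.Agent.L0h85.JS.t_TRG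

/-- **The vanishing, all twists.** -/
theorem a_VMQN : S_VMQN := Pool.Agent.L0h63.JS.t_VMQN (t_VANN Pool.Agent.L0h36.JS.t_LOC7)

end Pool.Agent.L0h1.JS
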