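import Pool.Agent.L0h1.SJ.SCH3
import Pool.Agent.L0h1.SJ.SCH4
import Pool.Agent.L0h86.JS.StmQ

/-!
# Project JS: from the joint law in all classes to Schneider's conjecture
-/

set_option autoImplicit false
set_option linter.unusedVariables false

open scoped Classical

namespace Pool.Agent.L0h1.JS

open Finset Filter
open Pool.Agent.L0h86.JR (Cr nR sqf amR)
open Pool.Agent.L0h86.JS (Cr7 CrG FamG S_LAWG S_VMQ7)
open Pool.Agent.L0h1.SJ (GA sqf_spec sqf_unique prod_ne mem_GA GA_eq GA_fin nR_congr amR_true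
  sqf_self eta_pos fin_sub SqF SqF_eq SqF_mono GA_one)
open Pool.Agent.Results.MP_59f3ad_nt.QuadraticFieldsNaturalDensity (QBar Gal SqrtField ShaZero
  fix_eq)

/-- the good sets of positive integers -/
def GoodG (A : Finset ℕ) : Prop := ∀ e ∈ GA A, CrG (-(e : ℤ))

/-- the good extensions, for any property of the squarefree parts -/
theorem good_insertP (P : ℕ → Prop) {A : Finset ℕ} (h0 : 0 ∉ A) (hA : ∀ e ∈ GA A, P e) {m : ℕ}
    (hm : m ≠ 0) : (∀ e ∈ GA (insert m A), P e) ↔ ∀ e ∈ GA A, P (sqf (e * m)) := by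
  have h0' : 0 ∉ insert m A := by
    rw [mem_insert]
    rintro (h | h)
    · exact hm h.symm
    · exact h0 h
  have hf0 : ∀ {T : Finset ℕ} {e f : ℕ}, T ⊆ A → ∏ a ∈ T, a = e * f ^ 2 → f ≠ 0 := by
    intro T e f hT h
    rintro rfl
    rw [zero_pow two_ne_zero, mul_zero] at h
    exact prod_ne h0 hT h
  constructor
  · rintro h e ⟨he, T, hT, f, hf⟩
    have hem : e * m ≠ 0 := mul_ne_zero he.ne_zero hm
    obtain ⟨h1, g, hg⟩ := sqf_spec hem
    by_cases hmT : m ∈ T
    · -- the subset without `m`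
      have h2 : m * ∏ a ∈ T.erase m, a = e * f ^ 2 := by
        rw [← hf]
        exact Finset.mul_prod_erase T (fun a => a) hmT
      have h3 : sqf (e * m) = sqf (∏ a ∈ T.erase m, a) := by
        have hT' : T.erase m ⊆ A := (Finset.erase_subset _ _).trans hT
        obtain ⟨h4, k, hk⟩ := sqf_spec (prod_ne h0 hT')
        have hff := hf0 hT hf
        -- e m f² = m² P, P = s k²
        have h5 : e * m * f ^ 2 = sqf (∏ a ∈ T.erase m, a) * (k * m) ^ 2 := by
          calc e * m * f ^ 2 = (e * f ^ 2) * m := by ring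
            _ = (m * ∏ a ∈ T.erase m, a) * m := by rw [h2]
            _ = (m * (sqf (∏ a ∈ T.erase m, a) * k ^ 2)) * m := by rw [← hk]
            _ = _ := by ring
        have h6 : sqf (e * m * f ^ 2) = sqf (∏ a ∈ T.erase m, a) :=
          sqf_unique (mul_ne_zero hem (pow_ne_zero 2 hff)) h4 h5
        have h7 : sqf (e * m * f ^ 2) = sqf (e * m) := by
          refine sqf_unique (f := g * f) (mul_ne_zero hem (pow_ne_zero 2 hff)) h1 ?_
          conv_lhs => rw [hg]
          ring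
        rw [← h7, h6]
      rw [h3]
      exact h _ (mem_GA h0' ((Finset.erase_subset _ _).trans (hT.trans (Finset.subset_insert _ _))))
    · refine h _ ⟨h1, insert m T, Finset.insert_subset_insert _ hT, g * f, ?_⟩
      rw [Finset.prod_insert hmT, hf]
      calc m * (e * f ^ 2) = (e * m) * f ^ 2 := by ring
        _ = (sqf (e * m) * g ^ 2) * f ^ 2 := by rw [← hg]
        _ = _ := by ring
  · rintro h e ⟨he, T, hT, f, hf⟩
    by_cases hmT : m ∈ T
    · have hT' : T.erase m ⊆ A := by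
        intro a ha
        rw [mem_erase] at ha
        rcases mem_insert.1 (hT ha.2) with h1 | h1
        · exact absurd h1 ha.1
        · exact h1
      have h2 := h _ (mem_GA h0 hT')
      obtain ⟨h4, k, hk⟩ := sqf_spec (prod_ne h0 hT')
      have h3 : sqf (sqf (∏ a ∈ T.erase m, a) * m) = e := by
        have hP : ∏ a ∈ T, a ≠ 0 := prod_ne h0' hT
        have h5 : ∏ a ∈ T, a = sqf (∏ a ∈ T.erase m, a) * m * k ^ 2 := by
          calc ∏ a ∈ T, a = m * ∏ a ∈ T.erase m, a :=
                (Finset.mul_prod_erase T (fun a => a) hmT).symm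
            _ = m * (sqf (∏ a ∈ T.erase m, a) * k ^ 2) := by rw [← hk]
            _ = _ := by ring
        have hsm : sqf (∏ a ∈ T.erase m, a) * m ≠ 0 := mul_ne_zero h4.ne_zero hm
        obtain ⟨h6, g, hg⟩ := sqf_spec hsm
        have h7 : sqf (∏ a ∈ T, a) = sqf (sqf (∏ a ∈ T.erase m, a) * m) := by
          refine sqf_unique (f := g * k) hP h6 ?_
          rw [h5]
          conv_lhs => rw [hg]
          ring
        rw [← h7]
        exact sqf_unique hP he hf
      rw [h3] at h2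
      exact h2
    · refine hA e ⟨he, T, fun a ha => ?_, f, hf⟩
      rcases mem_insert.1 (hT ha) with h1 | h1
      · exact absurd (h1 ▸ ha) hmT
      · exact h1

/-- **The extensions of a good set, in any class.** -/
theorem ext_ofG (hL : S_LAWG) {A : Finset ℕ} (h0 : 0 ∉ A) (hA : GoodG A) {q : ℕ} (hq : 0 < q)
    (r : ℕ) (hF : ∃ m, FamG q r m) :
    Tendsto (fun X : ℕ => (nR (FamG q r) (fun m => GoodG (insert m A)) X : ℝ) /
      nR (FamG q r) (fun _ => True) X) atTop
      (nhds (Pool.Agent.N916.GB.eta ^ (GA A).ncard)) := by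
  have hfin := GA_fin h0
  set G : Finset ℕ := hfin.toFinset with hG
  have hmem : ∀ e, e ∈ G ↔ e ∈ GA A := fun e => hfin.mem_toFinset
  have hcard : (GA A).ncard = G.card := Set.ncard_eq_toFinset_card _ hfin
  set d : Fin G.card → ℕ := fun i => (G.equivFin.symm i : ℕ) with hd
  have hdG : ∀ i, d i ∈ GA A := fun i => (hmem _).1 (G.equivFin.symm i).2
  have hsurj : ∀ e ∈ GA A, ∃ i, d i = e := by
    intro e he
    refine ⟨G.equivFin ⟨e, (hmem e).2 he⟩, ?_⟩
    simp only [hd, Equiv.symm_apply_apply]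
  have hself : ∀ e ∈ GA A, sqf e = e := by
    rintro e ⟨he, -⟩
    exact sqf_unique he.ne_zero he (f := 1) (by ring)
  have hpos : ∀ l, 0 < d l := fun l => Nat.pos_of_ne_zero (hdG l).1.ne_zero
  have hinj : Function.Injective fun l => sqf (d l) := by
    intro i j hij
    have h1 : sqf (d i) = sqf (d j) := hij
    rw [hself _ (hdG i), hself _ (hdG j)] at h1
    exact G.equivFin.symm.injective (Subtype.ext h1)
  have h1 := hL G.card d hpos hinj q r hq hF (fun _ => true)
  rw [amR_true] at h1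
  rw [hcard]
  refine h1.congr fun X => ?_
  have e2 : nR (FamG q r) (fun m => ∀ l, (CrG (-(sqf (d l * m) : ℤ)) ↔
      (fun _ : Fin G.card => true) l = true)) X =
      nR (FamG q r) (fun m => GoodG (insert m A)) X := by
    refine nR_congr (fun m => Iff.rfl) (fun m hm => ?_) X
    rw [show GoodG (insert m A) ↔ ∀ e ∈ GA A, CrG (-((sqf (e * m) : ℕ) : ℤ)) from
      good_insertP (fun e => CrG (-(e : ℤ))) h0 hA hm.1.ne_zero]
    constructor
    · intro h e he
      obtain ⟨i, rfl⟩ := hsurj e he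
      exact (h i).2 rfl
    · intro h l
      exact ⟨fun _ => rfl, fun _ => h _ (hdG l)⟩
  rw [e2]

theorem exists_largeG (hL : S_LAWG) {A : Finset ℕ} (h0 : 0 ∉ A) (hA : GoodG A) {q : ℕ}
    (hq : 0 < q) (r : ℕ) (hF : {m | FamG q r m}.Infinite) (K : ℕ) :
    ∃ m, K < m ∧ FamG q r m ∧ GoodG (insert m A) := by
  by_contra hcon
  push Not at hcon
  have hne : ∃ m, FamG q r m := hF.nonempty
  have h1 := ext_ofG hL h0 hA hq r hne
  have h2 : Tendsto (fun X : ℕ => nR (FamG q r) (fun _ => True) X) atTop atTop := by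
    refine tendsto_atTop_atTop.2 fun b => ?_
    obtain ⟨T, hT, hTc⟩ := hF.exists_subset_card_eq b
    refine ⟨T.sup id, fun X hX => ?_⟩
    rw [← hTc]
    unfold nR
    refine Finset.card_le_card fun m hm => ?_
    have hm' : FamG q r m := hT hm
    simp only [mem_filter, mem_Icc]
    exact ⟨⟨Nat.pos_of_ne_zero hm'.1.ne_zero, (Finset.le_sup (f := id) hm).trans hX⟩, hm', trivial⟩
  have h3 : Tendsto (fun X : ℕ => (K : ℝ) / (nR (FamG q r) (fun _ => True) X : ℝ)) atTop
      (nhds 0) :=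
    Tendsto.div_atTop tendsto_const_nhds (tendsto_natCast_atTop_atTop.comp h2)
  have h4 : ∀ X : ℕ, (nR (FamG q r) (fun m => GoodG (insert m A)) X : ℝ) /
      nR (FamG q r) (fun _ => True) X ≤ (K : ℝ) / (nR (FamG q r) (fun _ => True) X : ℝ) := by
    intro X
    refine div_le_div_of_nonneg_right ?_ (Nat.cast_nonneg _)
    have h5 : nR (FamG q r) (fun m => GoodG (insert m A)) X ≤ (Icc 1 K).card := by
      unfold nR
      refine Finset.card_le_card fun m hm => ?_
      simp only [mem_filter, mem_Icc] at hm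
      rw [mem_Icc]
      refine ⟨hm.1.1, ?_⟩
      by_contra hlt
      exact hcon m (not_le.1 hlt) hm.2.1 hm.2.2
    rw [Nat.card_Icc] at h5
    exact_mod_cast (by omega : nR (FamG q r) (fun m => GoodG (insert m A)) X ≤ K)
  have h6 := le_of_tendsto_of_tendsto' h1 h3 h4
  have h7 := pow_pos eta_pos (GA A).ncard
  linarith

/-- the good sets are stable under subsets -/
theorem good_subG {A B : Finset ℕ} (h : A ⊆ B) (hB : GoodG B) : GoodG A := by
  rintro e ⟨he, T, hT, f, hf⟩
  exact hB e ⟨he, T, hT.trans h, f, hf⟩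

/-! ### The tower over a good set -/

/-- the invariant -/
structure InvG (k c : ℕ) (A₀ A : Finset ℕ) : Prop where
  sub : A₀ ⊆ A
  zero : 0 ∉ A
  good : GoodG A
  new : ∀ b ∈ A, b ∉ A₀ → Squarefree b ∧ 1 < b ∧ b ≡ c [MOD k] ∧ ∀ a ∈ A, a ≠ b → a.Coprime b

theorem invG_step (hL : S_LAWG) {k c : ℕ} (hk : 0 < k) (hc : c.Coprime k) {A₀ A : Finset ℕ}
    (h : InvG k c A₀ A) : ∃ m, m ∉ A ∧ InvG k c A₀ (insert m A) := by
  set P : ℕ := ∏ a ∈ A, a with hP
  have hP0 : 0 < P := Nat.pos_of_ne_zero (prod_ne h.zero (Finset.Subset.refl _))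
  -- the primes of `P` prime to `k`
  set W : ℕ := ∏ p ∈ P.primeFactors \ k.primeFactors, p with hW
  have hW0 : 0 < W := Finset.prod_pos fun p hp =>
    (Nat.prime_of_mem_primeFactors (Finset.mem_sdiff.1 hp).1).pos
  have hkW : k.Coprime W := by
    refine Nat.Coprime.prod_right fun p hp => ?_
    obtain ⟨h1, h2⟩ := Finset.mem_sdiff.1 hp
    have hpp := Nat.prime_of_mem_primeFactors h1
    refine (Nat.Coprime.symm ((Nat.Prime.coprime_iff_not_dvd hpp).2 fun h3 => h2 ?_))
    exact Nat.mem_primeFactors.2 ⟨hpp, h3, hk.ne'⟩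
  obtain ⟨r, hr1, hr2⟩ := Nat.chineseRemainder hkW c 1
  have hq : 0 < k * W := Nat.mul_pos hk hW0
  have hrq : r.Coprime (k * W) := by
    refine Nat.Coprime.mul_right ?_ ?_
    · have h1 : r.gcd k = c.gcd k := hr1.gcd_eq
      exact h1.trans hc
    · have h1 : r.gcd W = (1 : ℕ).gcd W := hr2.gcd_eq
      rw [Nat.gcd_one_left] at h1
      exact h1
  have hinf : {m | FamG (k * W) r m}.Infinite := by
    rw [Set.infinite_iff_exists_gt]
    intro K
    obtain ⟨p, hp, hpp, hp1⟩ := Nat.forall_exists_prime_gt_and_modEq (q := k * W) (a := r) K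
      (by omega) hrq
    exact ⟨p, ⟨hpp.prime.squarefree, hp1⟩, hp⟩
  obtain ⟨m, hmK, hmF, hmG⟩ := exists_largeG hL h.zero h.good hq r hinf (P + 1)
  have hmr : m ≡ r [MOD k * W] := hmF.2
  have hmk : m ≡ c [MOD k] := (Nat.ModEq.of_mul_right W hmr).trans hr1
  have hmW : m ≡ 1 [MOD W] := (Nat.ModEq.of_mul_left k hmr).trans hr2
  have hcop : ∀ a ∈ A, a.Coprime m := by
    intro a ha
    refine Nat.Coprime.symm (Nat.coprime_of_dvd fun p hp hpm hpa => ?_)
    have h1 : p ∣ P := hpa.trans (Finset.dvd_prod_of_mem _ ha)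
    by_cases h2 : p ∣ k
    · have h3 : m.gcd k = c.gcd k := hmk.gcd_eq
      have h4 : p ∣ m.gcd k := Nat.dvd_gcd hpm h2
      rw [h3, show c.gcd k = 1 from hc] at h4
      exact hp.one_lt.ne' (Nat.dvd_one.1 h4)
    · have h5 : p ∣ W := by
        refine Finset.dvd_prod_of_mem (fun p => p) (Finset.mem_sdiff.2 ⟨?_, fun h6 => h2 ?_⟩)
        · exact Nat.mem_primeFactors.2 ⟨hp, h1, hP0.ne'⟩
        · exact Nat.dvd_of_mem_primeFactors h6
      have h3 : m.gcd W = (1 : ℕ).gcd W := hmW.gcd_eq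
      rw [Nat.gcd_one_left] at h3
      have h4 : p ∣ m.gcd W := Nat.dvd_gcd hpm h5
      rw [h3] at h4
      exact hp.one_lt.ne' (Nat.dvd_one.1 h4)
  have hmA : m ∉ A := by
    intro hm
    have h8 := Nat.le_of_dvd hP0 (Finset.dvd_prod_of_mem _ hm)
    omega
  refine ⟨m, hmA, h.sub.trans (Finset.subset_insert _ _), ?_, hmG, ?_⟩
  · rw [mem_insert]
    rintro (h0 | h0)
    · omega
    · exact h.zero h0
  · intro b hb hb0
    rcases mem_insert.1 hb with h1 | h1
    · rw [h1]
      refine ⟨hmF.1, by omega, hmk, fun a ha hab => ?_⟩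
      rcases mem_insert.1 ha with h2 | h2
      · exact absurd h2 hab
      · exact hcop a h2
    · obtain ⟨c1, c2, c3, c4⟩ := h.new b h1 hb0
      refine ⟨c1, c2, c3, fun a ha hab => ?_⟩
      rcases mem_insert.1 ha with h2 | h2
      · rw [h2]
        exact (hcop b h1).symm
      · exact c4 a h2 hab

/-- **The tower over a good set.** -/
theorem towerG (hL : S_LAWG) {k c : ℕ} (hk : 0 < k) (hc : c.Coprime k) {A₀ : Finset ℕ}
    (h0 : 0 ∉ A₀) (hA : GoodG A₀) :
    ∃ B : Set ℕ, (A₀ : Set ℕ) ⊆ B ∧ B.Infinite ∧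
      (∀ b ∈ B, b ∉ A₀ → Squarefree b ∧ 1 < b ∧ b ≡ c [MOD k] ∧
        ∀ a ∈ B, a ≠ b → a.Coprime b) ∧ ∀ A : Finset ℕ, (A : Set ℕ) ⊆ B → 0 ∉ A ∧ GoodG A := by
  choose! g hg using fun (A : Finset ℕ) (h : InvG k c A₀ A) => invG_step hL hk hc h
  obtain ⟨S, hS0, hS1⟩ : ∃ S : ℕ → Finset ℕ, S 0 = A₀ ∧
      ∀ n, S (n + 1) = insert (g (S n)) (S n) :=
    ⟨fun n => Nat.rec A₀ (fun _ A => insert (g A) A) n, rfl, fun n => rfl⟩
  have hinv : ∀ n, InvG k c A₀ (S n) := by
    intro n
    induction n with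
    | zero =>
      rw [hS0]
      exact ⟨Finset.Subset.refl _, h0, hA, fun b hb hb0 => absurd hb hb0⟩
    | succ n ih => rw [hS1]; exact (hg _ ih).2
  have hmono : Monotone S := monotone_nat_of_le_succ fun n => by
    rw [hS1]
    exact Finset.subset_insert _ _
  have hcard : ∀ n, n ≤ (S n).card := by
    intro n
    induction n with
    | zero => exact Nat.zero_le _
    | succ n ih =>
      rw [hS1, Finset.card_insert_of_notMem (hg _ (hinv n)).1]
      omega
  have hfin : ∀ A : Finset ℕ, (A : Set ℕ) ⊆ ⋃ n : ℕ, (↑(S n) : Set ℕ) → ∃ n, A ⊆ S n := by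
    intro A hA
    induction A using Finset.induction_on with
    | empty => exact ⟨0, Finset.empty_subset _⟩
    | insert a A ha ih =>
      rw [Finset.coe_insert, Set.insert_subset_iff] at hA
      obtain ⟨n, hn⟩ := ih hA.2
      obtain ⟨j, hj⟩ := Set.mem_iUnion.1 hA.1
      refine ⟨max n j, Finset.insert_subset (hmono (le_max_right _ _) hj)
        (hn.trans (hmono (le_max_left _ _)))⟩
  refine ⟨⋃ n : ℕ, (↑(S n) : Set ℕ), ?_, ?_, ?_, ?_⟩
  · intro a ha
    exact Set.mem_iUnion.2 ⟨0, by rw [hS0]; exact ha⟩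
  · intro hf
    obtain ⟨n, hn⟩ := hfin hf.toFinset (by rw [hf.coe_toFinset])
    have h1 : S ((S n).card + 1) ⊆ hf.toFinset := by
      intro a ha
      rw [hf.mem_toFinset]
      exact Set.mem_iUnion.2 ⟨_, ha⟩
    have h2 := Finset.card_le_card (h1.trans hn)
    have h3 := hcard ((S n).card + 1)
    omega
  · intro b hb hb0
    obtain ⟨n, hn⟩ := Set.mem_iUnion.1 hb
    obtain ⟨c1, c2, c3, c4⟩ := (hinv n).new b hn hb0
    refine ⟨c1, c2, c3, fun a ha hab => ?_⟩
    obtain ⟨j, hj⟩ := Set.mem_iUnion.1 ha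
    exact ((hinv (max n j)).new b (hmono (le_max_left _ _) hn) hb0).2.2.2 a
      (hmono (le_max_right _ _) hj) hab
  · intro A hA
    obtain ⟨n, hn⟩ := hfin A hA
    exact ⟨fun h => (hinv n).zero (hn h), good_subG hn (hinv n).good⟩

/-! ### The vanishing -/

theorem good_intG {A : Finset ℕ} (h0 : 0 ∉ A) (hA : GoodG A) (T : Finset ℤ)
    (hT : T ⊆ A.image fun a : ℕ => (a : ℤ)) (e f : ℤ) (hef : ∏ a ∈ T, a = e * f ^ 2)
    (he : Squarefree e) : CrG (-e) := by
  -- the subset of `A`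
  set T₀ : Finset ℕ := A.filter fun a => (a : ℤ) ∈ T with hT₀
  have hTT : T = T₀.image fun a : ℕ => (a : ℤ) := by
    ext x
    rw [mem_image]
    constructor
    · intro hx
      obtain ⟨a, ha, rfl⟩ := mem_image.1 (hT hx)
      exact ⟨a, mem_filter.2 ⟨ha, hx⟩, rfl⟩
    · rintro ⟨a, ha, rfl⟩
      exact (mem_filter.1 ha).2
  have hsub : T₀ ⊆ A := Finset.filter_subset _ _
  have hP : ((∏ a ∈ T₀, a : ℕ) : ℤ) = e * f ^ 2 := by
    rw [← hef, hTT, Finset.prod_image fun a _ b _ h => by exact_mod_cast h]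
    push_cast
    rfl
  have hP0 : (0 : ℤ) < e * f ^ 2 := by
    rw [← hP]
    exact_mod_cast Nat.pos_of_ne_zero (prod_ne h0 hsub)
  have hf0 : 0 < f ^ 2 := by
    rcases (sq_nonneg f).lt_or_eq with h | h
    · exact h
    · rw [← h, mul_zero] at hP0
      exact absurd hP0 (lt_irrefl _)
  have he0 : 0 < e := by
    by_contra hcon
    push Not at hcon
    nlinarith
  obtain ⟨n, rfl⟩ := Int.eq_ofNat_of_zero_le he0.le
  have hn : Squarefree n := Int.squarefree_natCast.1 he
  have h1 : ∏ a ∈ T₀, a = n * f.natAbs ^ 2 := by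
    have h2 : ((∏ a ∈ T₀, a : ℕ) : ℤ) = ((n * f.natAbs ^ 2 : ℕ) : ℤ) := by
      rw [hP]
      push_cast
      rw [sq_abs]
    exact_mod_cast h2
  exact hA n ⟨hn, T₀, hsub, f.natAbs, h1⟩

open Pool.Agent.N848.Q (fixs root_or' descend G) in
/-- **Schneider's conjecture, all odd twists.** -/
theorem schG (hV : S_VMQ7) {A : Finset ℕ} (h0 : 0 ∉ A) (hA : GoodG A) {r : ℤ} (hr : Odd r)
    {L : IntermediateField ℚ QBar} (hL : L ≤ SqF (A : Set ℕ)) : ShaZero L r := by
  intro c hc hsha
  set A' : Finset ℤ := A.image fun a : ℕ => (a : ℤ) with hA'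
  have h0' : (0 : ℤ) ∉ A' := by
    rw [hA', mem_image]
    rintro ⟨a, ha, h⟩
    have : a = 0 := by exact_mod_cast h
    exact h0 (this ▸ ha)
  have hr0 : r ≠ 0 := by
    rintro rfl
    exact absurd hr (by decide)
  -- the square roots
  have hex : ∀ a : ℤ, ∃ x : QBar, x ^ 2 = if a = 0 then 1 else (a : QBar) := fun a =>
    IsAlgClosed.exists_pow_nat_eq _ (by norm_num)
  choose s hs using hex
  have hs0 : ∀ a, s a ≠ 0 := by
    intro a h
    have h1 := hs a
    rw [h] at h1
    split_ifs at h1 with h2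
    · norm_num at h1
    · apply h2
      have h3 : (a : QBar) = 0 := by rw [← h1]; ring
      exact_mod_cast h3
  have hsA : ∀ a ∈ A', s a ^ 2 = a := by
    intro a ha
    rw [hs a, if_neg]
    rintro rfl
    exact h0' ha
  have hor : ∀ a (σ : G), σ (s a) = s a ∨ σ (s a) = -s a := by
    intro a σ
    refine root_or' (a := if a = 0 then 1 else a) ?_ σ
    rw [hs a]
    split_ifs <;> simp
  have hle : fixs s A' ≤ L.fixingSubgroup := by
    rw [← fix_eq A' s hsA, ← SqF_eq]
    exact IntermediateField.fixingSubgroup_antitone hL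
  have hn : (fixs s A').Normal := by
    refine ⟨fun σ hσ τ a ha => ?_⟩
    have h1 := hσ a ha
    rcases hor a τ⁻¹ with h2 | h2
    · rw [AlgEquiv.mul_apply, AlgEquiv.mul_apply, h2, h1]
      have h3 := congrArg τ h2
      rw [← AlgEquiv.mul_apply, mul_inv_cancel, AlgEquiv.one_apply] at h3
      exact h3.symm
    · rw [AlgEquiv.mul_apply, AlgEquiv.mul_apply, h2, map_neg, h1]
      have h3 := congrArg τ h2
      rw [← AlgEquiv.mul_apply, mul_inv_cancel, AlgEquiv.one_apply] at h3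
      exact h3.symm
  have hsq : ∀ σ : G, σ * σ ∈ fixs s A' := by
    intro σ a _
    rw [AlgEquiv.mul_apply]
    rcases hor a σ with h | h
    · rw [h, h]
    · rw [h, map_neg, h, neg_neg]
  obtain ⟨z, hz⟩ := descend hle hn hr0 hsq
    (hV s hs0 hor A' hsA r hr fun T hT e f h1 h2 => good_intG h0 hA T hT e f h1 h2) c hc.cont hc.mul
    (fun p _ ι hp σ hσ => hsha.odd p ι hp σ hσ) (fun ι => hsha.two ι)
  exact ⟨z, fun σ _ => hz σ⟩

/-- the good sets with one element -/
theorem good_oneG {n : ℕ} (hn : n ≠ 0) (h : CrG (-((sqf n : ℕ) : ℤ))) : GoodG {n} := by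
  intro e he
  rcases GA_one hn he with rfl | rfl
  · unfold CrG
    rw [if_neg (by decide)]
    exact Pool.Agent.N848.Q.crit_unit (Or.inr rfl)
  · exact h

/-- **The fields of one number.** -/
theorem simG (hV : S_VMQ7) {n : ℕ} (hn : n ≠ 0) (h : CrG (-((sqf n : ℕ) : ℤ))) :
    (∀ r : ℤ, Odd r → ∀ L : IntermediateField ℚ QBar, L ≤ SqF {n} → ShaZero L r) ∧
    (sqf n % 8 ≠ 7 → Cr (-((sqf n : ℕ) : ℤ))) := by
  refine ⟨fun r hr L hL => ?_, fun h7 => ?_⟩
  · refine schG hV (A := {n}) ?_ (good_oneG hn h) hr ?_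
    · rw [mem_singleton]
      exact hn.symm
    · rw [Finset.coe_singleton]
      exact hL
  · unfold CrG at h
    rw [if_neg (by omega)] at h
    exact h

end Pool.Agent.L0h1.JS
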